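import Pool.Agent.T2H63.CZ.Fin

/-!
# The relation `γ' = γ + α` between zeros of `L(s, χ ψ₁)` and of `L(s, χ⁻¹ ψ₂)`

Let `ψ₁`, `ψ₂` be primitive Dirichlet characters modulo `f₁`, `f₂` and let `α ≥ 0` be a real number. For a
modulus `q` prime to `f₁ f₂` and a primitive character `χ` modulo `q` consider the L-functions of `χ ψ₁`
and of `χ⁻¹ ψ₂`: Artin L-functions of the cyclotomic field of the `q f₁ f₂`-th roots of unity. The zeros of
`L(s, χ⁻¹ ψ₂)` in the upper half plane are the complex conjugates of the zeros of `L(s, χ ψ₂⁻¹)` in the lower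
half plane; in particular for `ψ₁ = ψ₂ = 1`, `α = 0` a common zero of the two functions is a zero `ρ` of
`L(s, χ)` such that the conjugate of `ρ` is a zero of `L(s, χ)`, too. Linear independence of the ordinates of
the critical zeros of Artin L-functions implies that `γ' = γ + α` is impossible for zeros `1/2 + iγ` of
`L(s, χ ψ₁)` and `1/2 + iγ'` of `L(s, χ⁻¹ ψ₂)` if the two characters are different and `α` is `0` or a rational
linear combination of other ordinates.

Unconditionally, for every fixed `ψ₁`, `ψ₂` and `α`, on average over the `X < q ≤ Y` prime to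
`f₁ f₂` (`K X ≤ Y ≤ X ^ (1 + η)`, weight `q⁻²`) and the primitive `χ` modulo `q`: let `N` be the number
of the zeros of `L(s, χ ψ₁)` with `T < Im s ≤ 2 T` and of the zeros of `L(s, χ⁻¹ ψ₂)` with
`T + α < Im s ≤ 2 T + α` together, with multiplicity. At least `0.13 N` of them are simple, lie on the
critical line, and are not in the relation `γ' = γ + α` with a zero of the other function; the number of the
distinct points of the two sets of zeros, the second one shifted by `α`, is at least `0.565 N`; and the number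
of the common points, even counted with the smaller of the two multiplicities, is at most `0.435 N` (it
could be `0.5 N`).

Proof. The trace inequality for zeros (no hypothesis on zeros off the line; starting files) is applied to
the product `L(s, χ ψ₁) L(s + iα, χ⁻¹ ψ₂)`. The mean squares over the family of the two prime sums are known up
to the length `X ^ (2 - ε)` (large sieve, starting files). The mixed term of the two prime sums contains
`χ(m) χ(n) = χ(mn)`, whose average over the family is at most `2 τ(mn - 1) / X`, so it is negligible up to the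
length `X ^ (1 - ε)`; beyond this length it is estimated by the inequality of Cauchy and Schwarz. This
gives the constant `1.8657 < 2` of the trace inequality.
-/

open Complex

namespace Pool.Agent.Results.MP_0f5a55_nt.ConjugateTwists

/-- The Dirichlet L-function of a character modulo `q` (the value for `q = 0` is never used). -/
noncomputable def Lfun (q : ℕ) (χ : DirichletCharacter ℂ q) : ℂ → ℂ :=
  if h : q = 0 then 0 else
    haveI : NeZero q := ⟨h⟩
    DirichletCharacter.LFunction χ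

/-- The character `χ ψ` modulo `q f`. -/
noncomputable def twist {q f : ℕ} (χ : DirichletCharacter ℂ q) (ψ : DirichletCharacter ℂ f) :
    DirichletCharacter ℂ (q * f) :=
  DirichletCharacter.changeLevel (Nat.dvd_mul_right q f) χ *
    DirichletCharacter.changeLevel (Nat.dvd_mul_left f q) ψ

/-- The function `F (s + iα)`; its zeros are the zeros of `F`, shifted by `- iα`. -/
noncomputable def shift (α : ℝ) (F : ℂ → ℂ) : ℂ → ℂ := fun s => F (s + (α : ℂ) * I)

/-- The zeros of `F` in the open critical strip with ordinate in `(T, 2T]`. -/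
def zeros (F : ℂ → ℂ) (T : ℝ) : Set ℂ :=
  {s : ℂ | 0 < s.re ∧ s.re < 1 ∧ T < s.im ∧ s.im ≤ 2 * T ∧ F s = 0}

/-- The number of these zeros, counted with multiplicity. -/
noncomputable def N (F : ℂ → ℂ) (T : ℝ) : ℕ := ∑ᶠ s ∈ zeros F T, analyticOrderNatAt F s

/-- The zeros of `F` on the critical line which are simple and are not zeros of `G`. -/
def only (F G : ℂ → ℂ) (T : ℝ) : Set ℂ :=
  {s : ℂ | s ∈ zeros F T ∧ s.re = 1 / 2 ∧ analyticOrderNatAt F s = 1 ∧ G s ≠ 0}

/-- The number of the common zeros of `F` and `G`, each counted with the smaller of the two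
multiplicities. -/
noncomputable def common (F G : ℂ → ℂ) (T : ℝ) : ℕ :=
  ∑ᶠ s ∈ zeros F T ∩ zeros G T, min (analyticOrderNatAt F s) (analyticOrderNatAt G s)

/-- The primitive Dirichlet characters of conductor `q`. -/
def prim (q : ℕ) : Set (DirichletCharacter ℂ q) := {χ | χ.IsPrimitive}

/-- The sum of `f q χ / q²` over the `q` prime to `m` with `X < q ≤ Y` and the primitive characters `χ`
modulo `q`. -/
noncomputable def fam (m X Y : ℕ) (f : (q : ℕ) → DirichletCharacter ℂ q → ℕ) : ℝ :=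
  ∑ q ∈ (Finset.Ioc X Y).filter (fun q => Nat.Coprime q m), (1 / (q : ℝ) ^ 2) *
    ∑ᶠ χ ∈ prim q, (f q χ : ℝ)

lemma fam_eq (m M X Y : ℕ) (h : ∀ q : ℕ, Nat.Coprime q M ↔ Nat.Coprime q m)
    (f : (q : ℕ) → DirichletCharacter ℂ q → ℕ) :
    fam m X Y f = H385.primFamM M X Y (fun q χ => (f q χ : ℝ)) := by
  unfold fam H385.primFamM
  have e : (Finset.Ioc X Y).filter (fun q => Nat.Coprime q m) =
      (Finset.Ioc X Y).filter (fun q => Nat.Coprime q M) :=
    Finset.filter_congr fun q _ => (h q).symm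
  rw [e]
  refine Finset.sum_congr rfl fun q _ => ?_
  congr 1
  rw [← finsum_set_coe_eq_finsum_mem]
  rfl

/-- **The relation `γ' = γ + α` between the zeros of `L(s, χ ψ₁)` and of `L(s, χ⁻¹ ψ₂)`, on average over
`χ`.** -/
theorem result (f₁ f₂ : ℕ) [NeZero f₁] [NeZero f₂] (ψ₁ : DirichletCharacter ℂ f₁)
    (ψ₂ : DirichletCharacter ℂ f₂) (h₁ : ψ₁.IsPrimitive) (h₂ : ψ₂.IsPrimitive) (α : ℝ) (hα : 0 ≤ α) :
    ∃ K η X₀ : ℝ, 1 ≤ K ∧ 0 < η ∧ 1 ≤ X₀ ∧
    ∀ (X Y : ℕ) (T : ℝ), X₀ ≤ X → K * X ≤ Y → (Y : ℝ) ≤ (X : ℝ) ^ (1 + η) →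
      (Real.log X) ^ 2 ≤ T → T ≤ (X : ℝ) ^ η →
      0 < fam (f₁ * f₂) X Y (fun q χ => N (Lfun (q * f₁) (twist χ ψ₁)) T +
        N (shift α (Lfun (q * f₂) (twist χ⁻¹ ψ₂))) T) ∧
      (∀ q : ℕ, X < q → Nat.Coprime q (f₁ * f₂) → ∀ χ ∈ prim q,
        (zeros (Lfun (q * f₁) (twist χ ψ₁)) T).Finite ∧
        (zeros (shift α (Lfun (q * f₂) (twist χ⁻¹ ψ₂))) T).Finite) ∧
      0.13 * fam (f₁ * f₂) X Y (fun q χ => N (Lfun (q * f₁) (twist χ ψ₁)) T +
          N (shift α (Lfun (q * f₂) (twist χ⁻¹ ψ₂))) T) ≤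
        fam (f₁ * f₂) X Y (fun q χ =>
          (only (Lfun (q * f₁) (twist χ ψ₁)) (shift α (Lfun (q * f₂) (twist χ⁻¹ ψ₂))) T).ncard +
          (only (shift α (Lfun (q * f₂) (twist χ⁻¹ ψ₂))) (Lfun (q * f₁) (twist χ ψ₁)) T).ncard) ∧
      0.565 * fam (f₁ * f₂) X Y (fun q χ => N (Lfun (q * f₁) (twist χ ψ₁)) T +
          N (shift α (Lfun (q * f₂) (twist χ⁻¹ ψ₂))) T) ≤
        fam (f₁ * f₂) X Y (fun q χ => (zeros (Lfun (q * f₁) (twist χ ψ₁)) T ∪
          zeros (shift α (Lfun (q * f₂) (twist χ⁻¹ ψ₂))) T).ncard) ∧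
      fam (f₁ * f₂) X Y (fun q χ =>
          common (Lfun (q * f₁) (twist χ ψ₁)) (shift α (Lfun (q * f₂) (twist χ⁻¹ ψ₂))) T) ≤
        0.435 * fam (f₁ * f₂) X Y (fun q χ => N (Lfun (q * f₁) (twist χ ψ₁)) T +
          N (shift α (Lfun (q * f₂) (twist χ⁻¹ ψ₂))) T) := by
  have hf : f₁ * f₂ ≠ 0 := Nat.mul_ne_zero (NeZero.ne f₁) (NeZero.ne f₂)
  obtain ⟨M, hsq, hM⟩ := Pool.Agent.T2H25.ZR.exists_rad (f₁ * f₂) hf
  obtain ⟨K, η, X0, hK, hη, hX0, h⟩ := Pool.Agent.T2H63.CZ.relation f₁ f₂ ψ₁ ψ₂ h₁ h₂ α hα M hsq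
    (fun q hq => (hM q).1 hq)
  refine ⟨K, η, X0, hK, hη, hX0, ?_⟩
  intro X Y T hX hKX hY hT1 hT2
  obtain ⟨b0, bf, b1, b2, b4⟩ := h X Y T hX hKX hY hT1 hT2
  rw [fam_eq _ M X Y hM, fam_eq _ M X Y hM, fam_eq _ M X Y hM, fam_eq _ M X Y hM]
  exact ⟨b0, fun q hq ho χ hχ => bf q hq ((hM q).2 ho) χ hχ, b1, b2, b4⟩

end Pool.Agent.Results.MP_0f5a55_nt.ConjugateTwists
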