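import Pool.Agent.T2H62.MQ.E2

/-!
# Coincidences among the zeros of `k` twisted and shifted L-functions

Let `k ≥ 1` and let `(ψ_i, α_i)`, `i < k`, be pairwise different pairs of a primitive Dirichlet
character `ψ_i` modulo `f_i` and a real number `α_i ≥ 0`. For a modulus `q` prime to `f_0 ⋯ f_(k-1)` and
a primitive character `χ` modulo `q` consider the functions `F_i(s) = L(s + iα_i, χ ψ_i)`, `i < k`. They
are L-functions of a cyclotomic field, shifted. A common zero of `F_i` and `F_j` is a pair of zeros of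
`L(s, χ ψ_i)` and `L(s, χ ψ_j)` with ordinates `γ`, `γ'` in the relation `γ - γ' = α_i - α_j`; if the
`α_i` are rational combinations of ordinates of zeros of fixed Artin L-functions (for instance all
`0`), then linear independence of the ordinates of the zeros of Artin L-functions forbids all these
relations, for all pairs `i ≠ j`, except the ones between an L-function and itself or its conjugate:
the `k` sets of zeros should be essentially disjoint.

Unconditionally, on average over `X < q ≤ Y` prime to the `f_i` (`K X ≤ Y ≤ X ^ (1 + η)`, weight `q⁻²`)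
and over the primitive `χ` modulo `q`: let `S` be the total number of the zeros of the `k` functions
with `T < Im s ≤ 2 T`, with multiplicity. For every `r ≥ 1` and `ε > 0` the number of the distinct
points among these zeros, all `k` functions together, is at least
`((12 r + 2 - 3 k) / (6 r (r + 1)) - ε) S`. For `k = 2 r` this is `(2 - 4 / (3 (r + 1)) - ε)` times the
mean `S / k` of the numbers of zeros of the single functions; the trivial bound is `1 - ε`, the case of
two functions gives `1.3578`, and from `k = 3` on the theorem gives more, `1.4166` for `k = 3`, `1.5555`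
for `k = 4`, and it tends to `2` for `k → ∞`. So however many functions `L(s + iα_i, χ ψ_i)` are taken,
their zeros cannot be concentrated on fewer than about twice as many points as one of them has.

Proof. The product of the `k` functions has the coefficients `χ(n) c(n) Λ(n)` with
`c(n) = ∑ ψ_i(n) n^(-iα_i)`; by the prime number theorem for Dirichlet characters
`∑ |c(n)|² Λ(n)² / n = (k / 2) (log x)² + O(log x)`, and the mean square over the family of the prime sums is
known up to the length `X ^ (2 - ε)` (sharp large sieve, starting files). The trace inequality for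
zeros (no hypothesis on zeros off the line) is proved with two levels: in the Hilbert space of the
kernel the operator of the zeros is compared with `r P + P'`, `P` and `P'` the projections on the spans of
all zeros and of the ones of multiplicity larger than `r` or off the line; a zero of multiplicity `m`
then counts at least `(2 r + 1) m - r (r + 1)`, as it would if all zeros were on the line.
-/

open Complex

namespace Pool.Agent.Results.MP_0f5a55_nt.DistinctZerosOfMany

/-- The Dirichlet L-function of a character modulo `q` (the value for `q = 0` is never used). -/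
noncomputable def Lfun (q : ℕ) (χ : DirichletCharacter ℂ q) : ℂ → ℂ :=
  if h : q = 0 then 0 else
    haveI : NeZero q := ⟨h⟩
    DirichletCharacter.LFunction χ

/-- The character `χ ψ` modulo `q f`. -/
noncomputable def twist {q f : ℕ} (χ : DirichletCharacter ℂ q) (ψ : DirichletCharacter ℂ f) :
    DirichletCharacter ℂ (q * f) :=
  DirichletCharacter.changeLevel (Nat.dvd_mul_right q f) χ *
    DirichletCharacter.changeLevel (Nat.dvd_mul_left f q) ψ

/-- The function `F (s + iα)`; its zeros are the zeros of `F`, shifted by `- iα`. -/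
noncomputable def shift (α : ℝ) (F : ℂ → ℂ) : ℂ → ℂ := fun s => F (s + (α : ℂ) * I)

/-- The zeros of `F` in the open critical strip with ordinate in `(T, 2T]`. -/
def zeros (F : ℂ → ℂ) (T : ℝ) : Set ℂ :=
  {s : ℂ | 0 < s.re ∧ s.re < 1 ∧ T < s.im ∧ s.im ≤ 2 * T ∧ F s = 0}

/-- The number of these zeros, counted with multiplicity. -/
noncomputable def N (F : ℂ → ℂ) (T : ℝ) : ℕ := ∑ᶠ s ∈ zeros F T, analyticOrderNatAt F s

/-- The primitive Dirichlet characters of conductor `q`. -/
def prim (q : ℕ) : Set (DirichletCharacter ℂ q) := {χ | χ.IsPrimitive}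

/-- The sum of `f q χ / q²` over the `q` prime to `m` with `X < q ≤ Y` and the primitive characters `χ`
modulo `q`. -/
noncomputable def fam (m X Y : ℕ) (f : (q : ℕ) → DirichletCharacter ℂ q → ℕ) : ℝ :=
  ∑ q ∈ (Finset.Ioc X Y).filter (fun q => Nat.Coprime q m), (1 / (q : ℝ) ^ 2) *
    ∑ᶠ χ ∈ prim q, (f q χ : ℝ)

/-- The function `L (s + iα, χ ψ)`. -/
noncomputable def F {f : ℕ} (ψ : DirichletCharacter ℂ f) (α : ℝ) (q : ℕ) (χ : DirichletCharacter ℂ q) :
    ℂ → ℂ := shift α (Lfun (q * f) (twist χ ψ))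

lemma fam_eq (m M X Y : ℕ) (h : ∀ q : ℕ, Nat.Coprime q M ↔ Nat.Coprime q m)
    (f : (q : ℕ) → DirichletCharacter ℂ q → ℕ) :
    fam m X Y f = H385.primFamM M X Y (fun q χ => (f q χ : ℝ)) := by
  unfold fam H385.primFamM
  have e : (Finset.Ioc X Y).filter (fun q => Nat.Coprime q m) =
      (Finset.Ioc X Y).filter (fun q => Nat.Coprime q M) :=
    Finset.filter_congr fun q _ => (h q).symm
  rw [e]
  refine Finset.sum_congr rfl fun q _ => ?_
  congr 1
  rw [← finsum_set_coe_eq_finsum_mem]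
  rfl

lemma quo_ne {f₁ f₂ : ℕ} [NeZero f₁] [NeZero f₂] (ψ₁ : DirichletCharacter ℂ f₁)
    (ψ₂ : DirichletCharacter ℂ f₂) {n : ℕ} (hn : Nat.Coprime n (f₁ * f₂))
    (h : ψ₁ (n : ZMod f₁) ≠ ψ₂ (n : ZMod f₂)) :
    Pool.Agent.T2H25.ZR.quo ψ₁ ψ₂ ≠ 1 := by
  intro h1
  apply h
  have hu : IsUnit (n : ZMod (f₁ * f₂)) := (ZMod.isUnit_iff_coprime n (f₁ * f₂)).2 hn
  have h2 : Pool.Agent.T2H25.ZR.quo ψ₁ ψ₂ (n : ZMod (f₁ * f₂)) = 1 := by
    rw [h1]
    exact MulChar.one_apply hu
  rw [Pool.Agent.T2H25.ZR.quo_apply] at h2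
  have hu1 : IsUnit (n : ZMod f₁) :=
    (ZMod.isUnit_iff_coprime n f₁).2 (Nat.Coprime.coprime_dvd_right (Nat.dvd_mul_right f₁ f₂) hn)
  have h3 : ‖ψ₁ (n : ZMod f₁)‖ = 1 := ψ₁.unit_norm_eq_one hu1.unit
  have h4 : ψ₁ (n : ZMod f₁) * (starRingEnd ℂ) (ψ₁ (n : ZMod f₁)) = 1 := by
    rw [Complex.mul_conj, Complex.normSq_eq_norm_sq, h3]
    norm_num
  calc ψ₁ (n : ZMod f₁) = ψ₁ (n : ZMod f₁) *
        ((starRingEnd ℂ) (ψ₁ (n : ZMod f₁)) * ψ₂ (n : ZMod f₂)) := by rw [h2, mul_one]
    _ = ψ₁ (n : ZMod f₁) * (starRingEnd ℂ) (ψ₁ (n : ZMod f₁)) * ψ₂ (n : ZMod f₂) := by ring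
    _ = ψ₂ (n : ZMod f₂) := by rw [h4, one_mul]

/-- **The number of the distinct zeros of `k` L-functions, on average over `χ`.** -/
theorem result (k : ℕ) (hk : 1 ≤ k) (f : ℕ → ℕ) [∀ i, NeZero (f i)]
    (ψ : ∀ i, DirichletCharacter ℂ (f i)) (α : ℕ → ℝ) (hψ : ∀ i, (ψ i).IsPrimitive)
    (hα : ∀ i, 0 ≤ α i)
    (hne : ∀ i j : ℕ, i < j → j < k → α i ≠ α j ∨
      ∃ n : ℕ, Nat.Coprime n (f i * f j) ∧ ψ i (n : ZMod (f i)) ≠ ψ j (n : ZMod (f j)))
    (r : ℕ) (hr : 1 ≤ r) (ε : ℝ) (hε : 0 < ε) :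
    ∃ K η X₀ : ℝ, 1 ≤ K ∧ 0 < η ∧ 1 ≤ X₀ ∧
    ∀ (X Y : ℕ) (T : ℝ), X₀ ≤ X → K * X ≤ Y → (Y : ℝ) ≤ (X : ℝ) ^ (1 + η) →
      (Real.log X) ^ 2 ≤ T → T ≤ (X : ℝ) ^ η →
      0 < fam (∏ i ∈ Finset.range k, f i) X Y
          (fun q χ => ∑ i ∈ Finset.range k, N (F (ψ i) (α i) q χ) T) ∧
      (∀ q : ℕ, X < q → Nat.Coprime q (∏ i ∈ Finset.range k, f i) → ∀ χ ∈ prim q, ∀ i < k,
        (zeros (F (ψ i) (α i) q χ) T).Finite) ∧
      ((12 * (r : ℝ) + 2 - 3 * k) / (6 * r * (r + 1)) - ε) *
          fam (∏ i ∈ Finset.range k, f i) X Y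
            (fun q χ => ∑ i ∈ Finset.range k, N (F (ψ i) (α i) q χ) T) ≤
        fam (∏ i ∈ Finset.range k, f i) X Y
          (fun q χ => (⋃ i ∈ Finset.range k, zeros (F (ψ i) (α i) q χ) T).ncard) := by
  have hf : (∏ i ∈ Finset.range k, f i) ≠ 0 := Finset.prod_ne_zero_iff.2 fun i _ => NeZero.ne (f i)
  obtain ⟨M, hsq, hM⟩ := Pool.Agent.T2H25.ZR.exists_rad _ hf
  have hne' : ∀ i < k, ∀ j < k, i ≠ j →
      Pool.Agent.T2H25.ZR.quo (ψ i) (ψ j) ≠ 1 ∨ α j - α i ≠ 0 := by
    intro i hi j hj hij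
    rcases lt_or_gt_of_ne hij with h | h
    · rcases hne i j h hj with h1 | ⟨n, hn, h1⟩
      · exact Or.inr (fun h2 => h1 (by linarith))
      · exact Or.inl (quo_ne (ψ i) (ψ j) hn h1)
    · rcases hne j i h hi with h1 | ⟨n, hn, h1⟩
      · exact Or.inr (fun h2 => h1 (by linarith))
      · refine Or.inl (quo_ne (ψ i) (ψ j) (n := n) ?_ (Ne.symm h1))
        rw [mul_comm]
        exact hn
  have hM' : ∀ q : ℕ, Nat.Coprime q M → ∀ i < k, Nat.Coprime q (f i) := fun q hq i hi =>
    Nat.Coprime.coprime_dvd_right (Finset.dvd_prod_of_mem f (Finset.mem_range.2 hi)) ((hM q).1 hq)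
  obtain ⟨K, η, X0, hK, hη, hX0, h⟩ := Pool.Agent.T2H62.MQ.many_two ψ α hψ hα k hk r hr hne' M hsq hM'
    ε hε
  refine ⟨K, η, X0, hK, hη, hX0, ?_⟩
  intro X Y T hX hKX hY hT1 hT2
  obtain ⟨b0, bf, b1⟩ := h X Y T hX hKX hY hT1 hT2
  rw [fam_eq _ M X Y hM, fam_eq _ M X Y hM]
  exact ⟨b0, fun q hq ho χ hχ i hi => bf q hq ((hM q).2 ho) χ hχ i hi, b1⟩

end Pool.Agent.Results.MP_0f5a55_nt.DistinctZerosOfMany
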