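import Pool.Agent.T2H62.MX.D

/-!
# Distinct zeros of irreducible Artin L-functions of every odd prime degree

Let `d` be an odd prime, `K` a Galois number field of degree `d` and `ψ` a primitive ray class
character of `K` (any conductor) whose induction to `ℚ` is irreducible, an Artin representation of
dimension `d`.  For a primitive Dirichlet character `χ` of conductor `q` prime to the conductor of
`ψ` and to the discriminant of `K` let `L(s, ψ · χ∘N)` be the Artin L-function of `Ind ψ ⊗ χ`.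
Linear independence of the ordinates of the critical zeros of Artin L-functions would imply that all
its zeros on the critical line are simple.  We prove, without any hypothesis, that in the average over
`q` and `χ` the number of the distinct zeros is at least `2 / d - 2 / (3 d (d² - 1)) - ε` times the
number of the zeros counted with multiplicity, for every `ε > 0`: the average multiplicity of the zeros
is hardly larger than `d / 2` (for `d = 5` at most `2.536`).  For `d ≥ 5` (in fact for degree at least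
`4`) nothing of this kind seems to be known for twists by Dirichlet characters: the method for simple
zeros gives a positive proportion only up to degree three (starting files, 27.945 per cent).

Proof. The trace inequality for zeros (no hypothesis on zeros off the line), in the form with two
levels `r = (d - 1) / 2` and `r + 1`: a zero of multiplicity `m` counts at least
`(2 r + 1) m - r (r + 1)`, as it would if all zeros were on the line (`T2H62/MQ/A2.lean`).  The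
functional equation, the growth and the Selberg orthonormality of the Hecke L-functions, and the
sharp large sieve are in the starting files (helpers 385, 388, 772, 773 and others).
-/

open NumberField

namespace Pool.Agent.Results.MP_0f5a55_nt.PrimeDegreeDistinct

section artin

variable {E : Type} [Field E] [NumberField E] {V : Type} [AddCommGroup V] [Module ℂ V]

/-- The inertia group of the prime ideal `P` of the ring of integers of `E` in `Gal(E/ℚ)`. -/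
def inertia (P : Ideal (𝓞 E)) : Set (E ≃ₐ[ℚ] E) :=
  {τ | ∀ x y : 𝓞 E, (y : E) = τ (x : E) → y - x ∈ P}

/-- `σ` is a Frobenius element at the prime ideal `P` above `p`: `σ x ≡ x^p mod P`. -/
def IsFrob (p : ℕ) (P : Ideal (𝓞 E)) (σ : E ≃ₐ[ℚ] E) : Prop :=
  P.IsPrime ∧ (p : 𝓞 E) ∈ P ∧ ∀ x y : 𝓞 E, (y : E) = σ (x : E) → y - x ^ p ∈ P

/-- The projection of `V` onto the subspace of the vectors fixed by the inertia group of `P`:
the average of `ρ τ` over the inertia group. -/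
noncomputable def invProj (ρ : Representation ℂ (E ≃ₐ[ℚ] E) V) (P : Ideal (𝓞 E)) : V →ₗ[ℂ] V :=
  ((inertia P).ncard : ℂ)⁻¹ • ∑ᶠ τ ∈ inertia P, ρ τ

/-- `det(1 - x ρ(σ) | V^I)`, where `I` is the inertia group of `P`. -/
noncomputable def eulerPoly (ρ : Representation ℂ (E ≃ₐ[ℚ] E) V) (P : Ideal (𝓞 E))
    (σ : E ≃ₐ[ℚ] E) (x : ℂ) : ℂ :=
  LinearMap.det (LinearMap.id - x • (ρ σ ∘ₗ invProj ρ P))

/-- `F` is the Artin L-function `L(s, ρ ⊗ χ)`, for a Dirichlet character `χ` modulo `q` (`ρ`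
unramified at the primes dividing `q`), and it is entire: for `Re s > 1` it is the product of
`det(1 - χ(p) p^(-s) ρ(Frob_p) | V^(I_p))⁻¹` over all primes `p` (for every choice of the Frobenius
elements). -/
def IsArtinL (ρ : Representation ℂ (E ≃ₐ[ℚ] E) V) (q : ℕ) (χ : DirichletCharacter ℂ q)
    (F : ℂ → ℂ) : Prop :=
  Differentiable ℂ F ∧ ∀ (P : Nat.Primes → Ideal (𝓞 E)) (σ : Nat.Primes → (E ≃ₐ[ℚ] E)),
    (∀ p : Nat.Primes, IsFrob p (P p) (σ p)) → ∀ s : ℂ, 1 < s.re →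
      HasProd (fun p : Nat.Primes =>
        (eulerPoly ρ (P p) (σ p) (χ ((p : ℕ) : ZMod q) * ((p : ℕ) : ℂ) ^ (-s)))⁻¹) (F s)

end artin

section

variable {K : Type} [Field K] [NumberField K]

/-- `x` is positive at all real places -/
def IsTotPos (x : 𝓞 K) : Prop := ∀ τ : K →+* ℝ, 0 < τ (x : K)

/-- `ψ` is a primitive ray class character of conductor `𝔣` (times some real places), as a
completely multiplicative function on the ideals, zero on the ideals not prime to `𝔣`. -/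
structure IsPrimitive (𝔣 : Ideal (𝓞 K)) (ψ : Ideal (𝓞 K) →*₀ ℂ) : Prop where
  ne_bot : 𝔣 ≠ ⊥
  supp : ∀ 𝔞 : Ideal (𝓞 K), 𝔞 ≠ ⊥ → (ψ 𝔞 ≠ 0 ↔ IsCoprime 𝔞 𝔣)
  ray : ∀ x : 𝓞 K, x ≠ 0 → x - 1 ∈ 𝔣 → IsTotPos x → ψ (Ideal.span {x}) = 1
  prim : ∀ 𝔤 : Ideal (𝓞 K), 𝔤 ∣ 𝔣 → 𝔤 ≠ 𝔣 →
    ∃ x : 𝓞 K, x - 1 ∈ 𝔤 ∧ IsTotPos x ∧ IsCoprime (Ideal.span {x}) 𝔣 ∧ ψ (Ideal.span {x}) ≠ 1

/-- The representation of `Gal(ℚ̄/ℚ)` induced by `ψ` is irreducible (for `K` Galois of prime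
degree): `ψ` takes different values at two prime ideals of the same prime norm `p ∤ N𝔣`. -/
def IndIrreducible (𝔣 : Ideal (𝓞 K)) (ψ : Ideal (𝓞 K) →*₀ ℂ) : Prop :=
  ∃ (p : ℕ) (P P' : Ideal (𝓞 K)), p.Prime ∧ ¬ p ∣ Ideal.absNorm 𝔣 ∧
    Ideal.absNorm P = p ∧ Ideal.absNorm P' = p ∧ ψ P ≠ ψ P'

/-- the Euler polynomial at `p` of the induced representation:
`∏_{𝔭 ∣ p} (1 - ψ(𝔭) x^(f(𝔭)))`, where `f(𝔭)` is the residue degree -/
noncomputable def heckePoly (ψ : Ideal (𝓞 K) →*₀ ℂ) (p : ℕ) (x : ℂ) : ℂ :=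
  ∏ᶠ 𝔭 ∈ {𝔭 : Ideal (𝓞 K) | 𝔭.IsPrime ∧ (p : 𝓞 K) ∈ 𝔭}, (1 - ψ 𝔭 * x ^ (𝔭.inertiaDeg ℤ))

/-- `F` is the entire function `L(s, ψ · χ∘N)`: for `Re s > 1` it is the product over the primes
`p` of `∏_{𝔭 ∣ p} (1 - ψ(𝔭) χ(N𝔭) N𝔭^(-s))⁻¹` -/
def IsHeckeL (ψ : Ideal (𝓞 K) →*₀ ℂ) (q : ℕ) (χ : DirichletCharacter ℂ q) (F : ℂ → ℂ) : Prop :=
  Differentiable ℂ F ∧ ∀ s : ℂ, 1 < s.re →
    HasProd (fun p : Nat.Primes =>
      (heckePoly ψ p (χ ((p : ℕ) : ZMod q) * ((p : ℕ) : ℂ) ^ (-s)))⁻¹) (F s)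

/-- the representation `ρ` of `Gal(E/ℚ)` is attached to `ψ` (that is, induced by `ψ`): the Euler
factors of its Artin L-function are those of `ψ` at every prime. -/
def Attached {E : Type} [Field E] [NumberField E] {V : Type} [AddCommGroup V] [Module ℂ V]
    (ψ : Ideal (𝓞 K) →*₀ ℂ) (ρ : Representation ℂ (E ≃ₐ[ℚ] E) V) : Prop :=
  ∀ p : ℕ, p.Prime → ∀ (P : Ideal (𝓞 E)) (σ : E ≃ₐ[ℚ] E), IsFrob p P σ →
    ∀ x : ℂ, eulerPoly ρ P σ x = heckePoly ψ p x

end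

/-- The zeros of `F` in the open critical strip with ordinate in `(T, 2T]`. -/
def zeros (F : ℂ → ℂ) (T : ℝ) : Set ℂ :=
  {s : ℂ | 0 < s.re ∧ s.re < 1 ∧ T < s.im ∧ s.im ≤ 2 * T ∧ F s = 0}

/-- The number of these zeros, counted with multiplicity. -/
noncomputable def N (F : ℂ → ℂ) (T : ℝ) : ℕ := ∑ᶠ s ∈ zeros F T, analyticOrderNatAt F s

/-- The number of distinct zeros. -/
noncomputable def Nd (F : ℂ → ℂ) (T : ℝ) : ℕ := (zeros F T).ncard

/-- The sum of `g q χ / q²` over all primitive Dirichlet characters `χ` of conductor `q` prime to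
`m`, `X < q ≤ Y`. -/
noncomputable def fam (m X Y : ℕ) (g : (q : ℕ) → DirichletCharacter ℂ q → ℕ) : ℝ :=
  ∑ q ∈ (Finset.Ioc X Y).filter (fun q => Nat.Coprime q m), (1 / (q : ℝ) ^ 2) *
    ∑ᶠ χ : {χ : DirichletCharacter ℂ q // χ.IsPrimitive}, (g q χ : ℝ)

/-- **Distinct zeros of the irreducible Artin L-functions of odd prime degree `d`.** -/
theorem result (K : Type) [Field K] [NumberField K] [IsGalois ℚ K] (d : ℕ) (hd : d.Prime)
    (hd2 : d ≠ 2) (hK : Module.finrank ℚ K = d) (𝔣 : Ideal (𝓞 K)) (ψ : Ideal (𝓞 K) →*₀ ℂ)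
    (hψ : IsPrimitive 𝔣 ψ) (hirr : IndIrreducible 𝔣 ψ) (ε : ℝ) (hε : 0 < ε) :
    ∃ L : (q : ℕ) → DirichletCharacter ℂ q → ℂ → ℂ,
      (∀ (q : ℕ) (χ : DirichletCharacter ℂ q), 2 ≤ q →
        Nat.Coprime q (Ideal.absNorm 𝔣 * (discr K).natAbs) → χ.IsPrimitive →
        IsHeckeL ψ q χ (L q χ) ∧
        ∀ (E : Type) [Field E] [NumberField E] [IsGalois ℚ E]
          (V : Type) [AddCommGroup V] [Module ℂ V] [FiniteDimensional ℂ V]
          (ρ : Representation ℂ (E ≃ₐ[ℚ] E) V), Attached ψ ρ → IsArtinL ρ q χ (L q χ)) ∧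
      ∃ κ η X0 : ℝ, 1 ≤ κ ∧ 0 < η ∧ 1 ≤ X0 ∧
        ∀ (X Y : ℕ) (T : ℝ), X0 ≤ X → κ * X ≤ Y → (Y : ℝ) ≤ (X : ℝ) ^ (1 + η) →
        (Real.log X) ^ 2 ≤ T → T ≤ (X : ℝ) ^ η →
        (2 / (d : ℝ) - 2 / (3 * d * ((d : ℝ) ^ 2 - 1)) - ε) *
            fam (Ideal.absNorm 𝔣 * (discr K).natAbs) X Y (fun q χ => N (L q χ) T) ≤
          fam (Ideal.absNorm 𝔣 * (discr K).natAbs) X Y (fun q χ => Nd (L q χ) T) := by
  have hp : Pool.Agent.Y773.G.IsPrimChar K 𝔣 ψ := ⟨hψ.ne_bot, hψ.supp, hψ.ray, hψ.prim⟩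
  obtain ⟨p, P, P', h1, h2, h3, h4, h5⟩ := hirr
  obtain ⟨r, hr⟩ : ∃ r : ℕ, d = 2 * r + 1 := (hd.odd_of_ne_two hd2).imp fun r h => h
  have hr1 : 1 ≤ r := by
    have := hd.two_le
    omega
  obtain ⟨L, hL, κ, η, X0, hκ, hη, hX0, h⟩ := Pool.Agent.T2H62.MX.dist_prime (K := K) inferInstance
    (by rw [hK]; exact hd) hp h1 h2 h3 h4 h5 r hr1 ε hε
  have hE : ∀ (q : ℕ) (χ : DirichletCharacter ℂ q), 2 ≤ q →
      Nat.Coprime q (Ideal.absNorm 𝔣 * (discr K).natAbs) → χ.IsPrimitive →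
      IsHeckeL ψ q χ (L q χ) := by
    intro q χ hq hqN hχ
    obtain ⟨a1, a2⟩ := hL q χ hq hqN hχ
    refine ⟨a1, fun s hs => ?_⟩
    rw [a2 s hs]
    exact Pool.Agent.Y773.hasProd_tw (hp.norm_le_one Pool.Agent.Y772.G.t_sig) χ hs
  have hconst : (2 * (r : ℝ) + 1 - ((Module.finrank ℚ K : ℝ) / 2 +
      2 / (3 * (Module.finrank ℚ K : ℝ)))) / (r * (r + 1)) =
      2 / (d : ℝ) - 2 / (3 * d * ((d : ℝ) ^ 2 - 1)) := by
    rw [hK, hr]
    push_cast
    have hr0 : (0 : ℝ) < r := by exact_mod_cast hr1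
    have e1 : (2 * (r : ℝ) + 1) ^ 2 - 1 = 4 * (r * (r + 1)) := by ring
    have e2 : (2 * (r : ℝ) + 1) ≠ 0 := by positivity
    have e3 : (r : ℝ) + 1 ≠ 0 := by positivity
    rw [e1]
    field_simp
    ring
  rw [hconst] at h
  refine ⟨L, ?_, κ, η, X0, hκ, hη, hX0, fun X Y T a1 a2 a3 a4 a5 => h X Y T a1 a2 a3 a4 a5⟩
  intro q χ hq hqN hχ
  refine ⟨hE q χ hq hqN hχ, ?_⟩
  intro E _ _ _ V _ _ _ ρ hρ
  obtain ⟨a1, a2⟩ := hE q χ hq hqN hχ
  refine ⟨a1, fun P τ hτ s hs => ?_⟩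
  refine (a2 s hs).congr_fun fun p => ?_
  rw [hρ p p.2 (P p) (τ p) (hτ p)]

end Pool.Agent.Results.MP_0f5a55_nt.PrimeDegreeDistinct
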