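import Pool.Agent.T2H25.ZR.A5

/-!
# The relation `γ' = γ + α` between zeros of twisted Dirichlet L-functions

Let `ψ₁`, `ψ₂` be primitive Dirichlet characters modulo `f₁`, `f₂` and let `α ≥ 0` be a real number,
with `α ≠ 0` or `ψ₁ ≠ ψ₂` (as primitive characters). For a modulus `q` prime to `f₁ f₂` and a primitive
character `χ` modulo `q` consider the L-functions of `χ ψ₁` and `χ ψ₂` (they may be equal if `α ≠ 0`):
Artin L-functions of the cyclotomic field of the `q f₁ f₂`-th roots of unity. Linear independence of the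
ordinates of the critical zeros of Artin L-functions implies that `γ' = γ + α` is impossible for zeros
`1/2 + iγ` of `L(s, χ ψ₁)` and `1/2 + iγ'` of `L(s, χ ψ₂)` if `α = 0`, or if `α` is a rational linear
combination of ordinates of zeros of Artin L-functions of one fixed field, unless these L-functions and
`L(s, χ ψ₁)`, `L(s, χ ψ₂)` are related.

Unconditionally, for every fixed `ψ₁`, `ψ₂` and `α` as above, on average over the `X < q ≤ Y` prime to
`f₁ f₂` (`K X ≤ Y ≤ X ^ (1 + η)`, weight `q⁻²`) and the primitive `χ` modulo `q`: let `N` be the number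
of the zeros of `L(s, χ ψ₁)` with `T < Im s ≤ 2 T` and of the zeros of `L(s, χ ψ₂)` with
`T + α < Im s ≤ 2 T + α` together, with multiplicity. At least `0.3579 N` of them are simple, lie on the
critical line, and are not in the relation `γ' = γ + α` with a zero of the other function; at least
`0.0368 N` of them have moreover an ordinate which is not equal, after the shift by `α`, to any other of
these ordinates; the number of the distinct points of the two sets of zeros, the second one shifted by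
`α`, is at least `0.6789 N`; and the number of the pairs of zeros `(1/2 + δ + iγ, 1/2 + δ + i(γ + α))`,
even counted with the smaller of the two multiplicities, is at most `0.3211 N` (it could be `0.5 N`).

Proof. The trace inequality for zeros (no hypothesis on zeros off the line; starting files) is applied to
the product `L(s, χ ψ₁) L(s + iα, χ ψ₂)`, with the coefficients `χ(n) (ψ₁(n) + ψ₂(n) n^(-iα)) Λ(n)`. By
the prime number theorem for Dirichlet characters with an error term the sum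
`∑ ψ₁(n) conj(ψ₂(n)) n^(iα) Λ(n) / n` is bounded, hence `∑ |ψ₁(n) + ψ₂(n) n^(-iα)|² Λ(n)² / n` is
`(log x)²` up to `O(log x)`, and the mean square of the prime sums over the family is known up to the
length `X ^ (2 - ε)` by the sharp large sieve of the starting files.
-/

open Complex

namespace Pool.Agent.Results.MP_0f5a55_nt.ShiftedZeros

/-- The Dirichlet L-function of a character modulo `q` (the value for `q = 0` is never used). -/
noncomputable def Lfun (q : ℕ) (χ : DirichletCharacter ℂ q) : ℂ → ℂ :=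
  if h : q = 0 then 0 else
    haveI : NeZero q := ⟨h⟩
    DirichletCharacter.LFunction χ

/-- The character `χ ψ` modulo `q f`. -/
noncomputable def twist {q f : ℕ} (χ : DirichletCharacter ℂ q) (ψ : DirichletCharacter ℂ f) :
    DirichletCharacter ℂ (q * f) :=
  DirichletCharacter.changeLevel (Nat.dvd_mul_right q f) χ *
    DirichletCharacter.changeLevel (Nat.dvd_mul_left f q) ψ

/-- The function `F (s + iα)`; its zeros are the zeros of `F`, shifted by `- iα`. -/
noncomputable def shift (α : ℝ) (F : ℂ → ℂ) : ℂ → ℂ := fun s => F (s + (α : ℂ) * I)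

/-- The zeros of `F` in the open critical strip with ordinate in `(T, 2T]`. -/
def zeros (F : ℂ → ℂ) (T : ℝ) : Set ℂ :=
  {s : ℂ | 0 < s.re ∧ s.re < 1 ∧ T < s.im ∧ s.im ≤ 2 * T ∧ F s = 0}

/-- The number of these zeros, counted with multiplicity. -/
noncomputable def N (F : ℂ → ℂ) (T : ℝ) : ℕ := ∑ᶠ s ∈ zeros F T, analyticOrderNatAt F s

/-- The zeros of `F` on the critical line which are simple and are not zeros of `G`. -/
def only (F G : ℂ → ℂ) (T : ℝ) : Set ℂ :=
  {s : ℂ | s ∈ zeros F T ∧ s.re = 1 / 2 ∧ analyticOrderNatAt F s = 1 ∧ G s ≠ 0}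

/-- Those of them whose ordinate is not the ordinate of any other zero of `F` or `G`. -/
def alone (F G : ℂ → ℂ) (T : ℝ) : Set ℂ :=
  {s : ℂ | s ∈ only F G T ∧ ∀ s' ∈ zeros F T ∪ zeros G T, s'.im = s.im → s' = s}

/-- The number of the common zeros of `F` and `G`, each counted with the smaller of the two
multiplicities. -/
noncomputable def common (F G : ℂ → ℂ) (T : ℝ) : ℕ :=
  ∑ᶠ s ∈ zeros F T ∩ zeros G T, min (analyticOrderNatAt F s) (analyticOrderNatAt G s)

/-- The primitive Dirichlet characters of conductor `q`. -/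
def prim (q : ℕ) : Set (DirichletCharacter ℂ q) := {χ | χ.IsPrimitive}

/-- The sum of `f q χ / q²` over the `q` prime to `m` with `X < q ≤ Y` and the primitive characters `χ`
modulo `q`. -/
noncomputable def fam (m X Y : ℕ) (f : (q : ℕ) → DirichletCharacter ℂ q → ℕ) : ℝ :=
  ∑ q ∈ (Finset.Ioc X Y).filter (fun q => Nat.Coprime q m), (1 / (q : ℝ) ^ 2) *
    ∑ᶠ χ ∈ prim q, (f q χ : ℝ)

lemma fam_eq (m M X Y : ℕ) (h : ∀ q : ℕ, Nat.Coprime q M ↔ Nat.Coprime q m)
    (f : (q : ℕ) → DirichletCharacter ℂ q → ℕ) :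
    fam m X Y f = H385.primFamM M X Y (fun q χ => (f q χ : ℝ)) := by
  unfold fam H385.primFamM
  have e : (Finset.Ioc X Y).filter (fun q => Nat.Coprime q m) =
      (Finset.Ioc X Y).filter (fun q => Nat.Coprime q M) :=
    Finset.filter_congr fun q _ => (h q).symm
  rw [e]
  refine Finset.sum_congr rfl fun q _ => ?_
  congr 1
  rw [← finsum_set_coe_eq_finsum_mem]
  rfl

/-- **The relation `γ' = γ + α` on average over `χ`.** -/
theorem result (f₁ f₂ : ℕ) [NeZero f₁] [NeZero f₂] (ψ₁ : DirichletCharacter ℂ f₁)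
    (ψ₂ : DirichletCharacter ℂ f₂) (h₁ : ψ₁.IsPrimitive) (h₂ : ψ₂.IsPrimitive) (α : ℝ) (hα : 0 ≤ α)
    (hne : α ≠ 0 ∨ ∃ n : ℕ, Nat.Coprime n (f₁ * f₂) ∧ ψ₁ (n : ZMod f₁) ≠ ψ₂ (n : ZMod f₂)) :
    ∃ K η X₀ : ℝ, 1 ≤ K ∧ 0 < η ∧ 1 ≤ X₀ ∧
    ∀ (X Y : ℕ) (T : ℝ), X₀ ≤ X → K * X ≤ Y → (Y : ℝ) ≤ (X : ℝ) ^ (1 + η) →
      (Real.log X) ^ 2 ≤ T → T ≤ (X : ℝ) ^ η →
      0 < fam (f₁ * f₂) X Y (fun q χ => N (Lfun (q * f₁) (twist χ ψ₁)) T +
        N (shift α (Lfun (q * f₂) (twist χ ψ₂))) T) ∧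
      (∀ q : ℕ, X < q → Nat.Coprime q (f₁ * f₂) → ∀ χ ∈ prim q,
        (zeros (Lfun (q * f₁) (twist χ ψ₁)) T).Finite ∧
        (zeros (shift α (Lfun (q * f₂) (twist χ ψ₂))) T).Finite) ∧
      0.3579 * fam (f₁ * f₂) X Y (fun q χ => N (Lfun (q * f₁) (twist χ ψ₁)) T +
          N (shift α (Lfun (q * f₂) (twist χ ψ₂))) T) ≤
        fam (f₁ * f₂) X Y (fun q χ =>
          (only (Lfun (q * f₁) (twist χ ψ₁)) (shift α (Lfun (q * f₂) (twist χ ψ₂))) T).ncard +
          (only (shift α (Lfun (q * f₂) (twist χ ψ₂))) (Lfun (q * f₁) (twist χ ψ₁)) T).ncard) ∧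
      0.0368 * fam (f₁ * f₂) X Y (fun q χ => N (Lfun (q * f₁) (twist χ ψ₁)) T +
          N (shift α (Lfun (q * f₂) (twist χ ψ₂))) T) ≤
        fam (f₁ * f₂) X Y (fun q χ =>
          (alone (Lfun (q * f₁) (twist χ ψ₁)) (shift α (Lfun (q * f₂) (twist χ ψ₂))) T).ncard +
          (alone (shift α (Lfun (q * f₂) (twist χ ψ₂))) (Lfun (q * f₁) (twist χ ψ₁)) T).ncard) ∧
      0.6789 * fam (f₁ * f₂) X Y (fun q χ => N (Lfun (q * f₁) (twist χ ψ₁)) T +
          N (shift α (Lfun (q * f₂) (twist χ ψ₂))) T) ≤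
        fam (f₁ * f₂) X Y (fun q χ => (zeros (Lfun (q * f₁) (twist χ ψ₁)) T ∪
          zeros (shift α (Lfun (q * f₂) (twist χ ψ₂))) T).ncard) ∧
      fam (f₁ * f₂) X Y (fun q χ =>
          common (Lfun (q * f₁) (twist χ ψ₁)) (shift α (Lfun (q * f₂) (twist χ ψ₂))) T) ≤
        0.3211 * fam (f₁ * f₂) X Y (fun q χ => N (Lfun (q * f₁) (twist χ ψ₁)) T +
          N (shift α (Lfun (q * f₂) (twist χ ψ₂))) T) := by
  have hf : f₁ * f₂ ≠ 0 := Nat.mul_ne_zero (NeZero.ne f₁) (NeZero.ne f₂)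
  obtain ⟨M, hsq, hM⟩ := Pool.Agent.T2H25.ZR.exists_rad (f₁ * f₂) hf
  have hne' : Pool.Agent.T2H25.ZR.quo ψ₁ ψ₂ ≠ 1 ∨ α ≠ 0 := by
    rcases hne with h | ⟨n, hn, h⟩
    · exact Or.inr h
    · left
      intro h1
      apply h
      have hu : IsUnit (n : ZMod (f₁ * f₂)) := (ZMod.isUnit_iff_coprime n (f₁ * f₂)).2 hn
      have h2 : Pool.Agent.T2H25.ZR.quo ψ₁ ψ₂ (n : ZMod (f₁ * f₂)) = 1 := by
        rw [h1]
        exact MulChar.one_apply hu
      rw [Pool.Agent.T2H25.ZR.quo_apply] at h2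
      have hu1 : IsUnit (n : ZMod f₁) :=
        (ZMod.isUnit_iff_coprime n f₁).2 (Nat.Coprime.coprime_dvd_right (Nat.dvd_mul_right f₁ f₂) hn)
      have h3 : ‖ψ₁ (n : ZMod f₁)‖ = 1 := ψ₁.unit_norm_eq_one hu1.unit
      have h4 : ψ₁ (n : ZMod f₁) * (starRingEnd ℂ) (ψ₁ (n : ZMod f₁)) = 1 := by
        rw [Complex.mul_conj, Complex.normSq_eq_norm_sq, h3]
        norm_num
      calc ψ₁ (n : ZMod f₁) = ψ₁ (n : ZMod f₁) *
            ((starRingEnd ℂ) (ψ₁ (n : ZMod f₁)) * ψ₂ (n : ZMod f₂)) := by rw [h2, mul_one]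
        _ = ψ₁ (n : ZMod f₁) * (starRingEnd ℂ) (ψ₁ (n : ZMod f₁)) * ψ₂ (n : ZMod f₂) := by ring
        _ = ψ₂ (n : ZMod f₂) := by rw [h4, one_mul]
  obtain ⟨K, η, X0, hK, hη, hX0, h⟩ := Pool.Agent.T2H25.ZR.relation ψ₁ ψ₂ α h₁ h₂ hα hne' M hsq
    (fun q hq => (hM q).1 hq)
  refine ⟨K, η, X0, hK, hη, hX0, ?_⟩
  intro X Y T hX hKX hY hT1 hT2
  obtain ⟨b0, bf, b1, b2, b3, b4⟩ := h X Y T hX hKX hY hT1 hT2
  rw [fam_eq _ M X Y hM, fam_eq _ M X Y hM, fam_eq _ M X Y hM, fam_eq _ M X Y hM,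
    fam_eq _ M X Y hM]
  exact ⟨b0, fun q hq ho χ hχ => bf q hq ((hM q).2 ho) χ hχ, b1, b2, b3, b4⟩

end Pool.Agent.Results.MP_0f5a55_nt.ShiftedZeros
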